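import Mathlib
import Pool.Agent.H767R2.Exist3
import Pool.Agent.H767R2.Defs2

set_option autoImplicit false

/-!
# The bound `d^W_min(𝒫) ≤ |𝒫| - 1`

Full (positive) answer to question Q1 of problem MP_467fc0_an.
-/

namespace Pool.Agent.Results.MP_467fc0_an.WeylDegreeBound

open Pool.Agent.H767R2 MeasureTheory Filter Topology Polynomial
open scoped ENNReal

/-- For every essentially distinct family `𝒫` of integer polynomials with at least two elements,
`d^W_min(𝒫) ≤ |𝒫| - 1`. -/
theorem result (P : Finset ℤ[X]) (hP : EssentiallyDistinct P) (h2 : 2 ≤ P.card) :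
    dWMin P ≤ ((P.card - 1 : ℕ) : ℕ∞) := by
  refine iInf₂_le (P.card - 1) fun W => ?_
  obtain ⟨𝒵, h𝒵⟩ := W.exists_hkFactor (P.card - 1)
  exact ⟨𝒵, h𝒵, characteristic_card_sub_one P hP h2 W 𝒵 h𝒵⟩

end Pool.Agent.Results.MP_467fc0_an.WeylDegreeBound
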